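import Mathlib
import Pool.Agent.TH773.PSet.Defs

/-!
# Null sets in the forcing language

The elements of `2^ω` are identified with the subsets of `ω`. Null sets are coded by sequences
`c` of sets of finite sequences of bits such that the cylinders given by the members of `c n` have
total measure at most `2⁻ⁿ`; the set with code `c` is the set of all `x ∈ 2^ω` which, for every `n`,
extend some member of `c n`.
-/

set_option autoImplicit false

namespace Pool.Agent.V11242.RN

open Pool.Agent.TH773.PSet

universe u

section Forcing

variable {P : Type u} [Preorder P]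

/-- The named sequence `c` of sets of finite sequences is a code: no finite set of finite sequences
with total weight larger than `2⁻ⁿ` is included in `c n`. -/
def IsNullCode (c : ℕ → List Bool → Set P) : Set P :=
  fall fun n => fall fun A : Finset (List Bool) =>
    fall fun _ : ¬ ∑ σ ∈ A, (2 : ENNReal)⁻¹ ^ σ.length ≤ (2 : ENNReal)⁻¹ ^ n =>
      fnot (fall fun σ => fall fun _ : σ ∈ A => meets (c n σ))

/-- The bit with index `i` of the element `x` of `2^ω` is `v`. -/
def BitIs (x : ℕ → Set P) (i : ℕ) (v : Bool) : Set P :=
  cond v (meets (x i)) (fnot (meets (x i)))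

/-- The element `x` of `2^ω` extends the finite sequence `σ`. -/
def Extends (x : ℕ → Set P) (σ : List Bool) : Set P :=
  fall fun i => fall fun _ : i < σ.length => BitIs x i (σ.getD i false)

/-- The element `x` of `2^ω` belongs to the null set with code `c`. -/
def InNull (x : ℕ → Set P) (c : ℕ → List Bool → Set P) : Set P :=
  fall fun n => fex fun σ => fand (meets (c n σ)) (Extends x σ)

variable (P) in
/-- There is a family of elements of `2^ω`, indexed by `K`, which is not included in any null
set. -/
def NonNullFamily (K : Type) : Set P :=
  fex fun r : K → ℕ → Set P => fall fun c : ℕ → List Bool → Set P =>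
    fimp (IsNullCode c) (fex fun k => fnot (InNull (r k) c))

variable (P) in
/-- For every family of null sets which is indexed by `K` there is an element of `2^ω` outside of
all of them. -/
def NoNullCover (K : Type) : Set P :=
  fall fun C : K → ℕ → List Bool → Set P => fimp (fall fun k => IsNullCode (C k))
    (fex fun x : ℕ → Set P => fall fun k => fnot (InNull x (C k)))

variable (P) in
/-- The sentence `PhiFor K`, in the forcing language. -/
def PhiHolds (K : Type) : Set P := fand (NonNullFamily P K) (NoNullCover P K)

end Forcing

/-! ### The same sentence, outside of the forcing language -/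

/-- The sequence `c` of sets of finite sequences is a code. -/
def NullCode (c : ℕ → Set (List Bool)) : Prop :=
  ∀ n, ∀ A : Finset (List Bool),
    ¬ ∑ σ ∈ A, (2 : ENNReal)⁻¹ ^ σ.length ≤ (2 : ENNReal)⁻¹ ^ n → ¬ ∀ σ, σ ∈ A → σ ∈ c n

/-- `x` belongs to the null set with code `c`. -/
def InCoded (x : ℕ → Bool) (c : ℕ → Set (List Bool)) : Prop :=
  ∀ n, ∃ σ, σ ∈ c n ∧ ∀ i, i < σ.length → x i = σ.getD i false

/-- There is a family of elements of `2^ω`, indexed by `K`, which is not included in any null set,
and for every family of null sets which is indexed by `K` there is an element of `2^ω` outside of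
all of them. In other words, `non(N) ≤ |K| < cov(N)`. -/
def PhiFor (K : Type) : Prop :=
  (∃ r : K → ℕ → Bool, ∀ c : ℕ → Set (List Bool), NullCode c → ∃ k, ¬ InCoded (r k) c) ∧
  (∀ C : K → ℕ → Set (List Bool), (∀ k, NullCode (C k)) →
    ∃ x : ℕ → Bool, ∀ k, ¬ InCoded x (C k))

end Pool.Agent.V11242.RN
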