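import Mathlib
import Pool.Agent.V11242.RF.Pol
import Pool.Agent.V11242.RN.Defs

/-!
# Random reals and null sets
-/

set_option autoImplicit false
set_option linter.unusedSectionVars false

namespace Pool.Agent.V11242.RN

open Pool.Agent.TH773.PSet Pool.Agent.V11242.RF MeasureTheory Set Filter Topology

universe u v

variable {I : Type}

section Gen

variable {P : Type u} [Preorder P]

theorem reg_isNullCode (c : ℕ → List Bool → Set P) : Reg (IsNullCode c) :=
  reg_fall fun _ => reg_fall fun _ => reg_fall fun _ =>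
    reg_fnot (down_fall fun _ => down_fall fun _ => (reg_meets _).1)

theorem reg_bitIs (x : ℕ → Set P) (i : ℕ) (v : Bool) : Reg (BitIs x i v) := by
  cases v
  · exact reg_fnot (reg_meets _).1
  · exact reg_meets _

theorem reg_extends (x : ℕ → Set P) (σ : List Bool) : Reg (Extends x σ) :=
  reg_fall fun _ => reg_fall fun _ => reg_bitIs _ _ _

theorem reg_inNull (x : ℕ → Set P) (c : ℕ → List Bool → Set P) : Reg (InNull x c) :=
  reg_fall fun _ => reg_fex _

end Gen

section Meas

variable {Ω : Type u} [MeasurableSpace Ω] {μ : Measure Ω} [IsFiniteMeasure μ]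

/-- The set of the points at which the random element `x` extends `σ`. -/
def ext (x : ℕ → Set Ω) (σ : List Bool) : Set Ω :=
  {ω | ∀ i, i < σ.length → (ω ∈ x i ↔ σ.getD i false = true)}

theorem ext_eq (x : ℕ → Set Ω) (σ : List Bool) :
    ext x σ = ⋂ i : ℕ, ⋂ (_ : i < σ.length), cond (σ.getD i false) (x i) (x i)ᶜ := by
  ext ω
  simp only [ext, mem_ofPred_eq, mem_iInter]
  refine forall_congr' fun i => forall_congr' fun _ => ?_
  cases σ.getD i false <;> simp

theorem measurable_cond {x : ℕ → Set Ω} (hx : Meas x) (i : ℕ) (v : Bool) :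
    MeasurableSet (cond v (x i) (x i)ᶜ) := by
  cases v
  · exact (hx i).compl
  · exact hx i

theorem measurable_ext {x : ℕ → Set Ω} (hx : Meas x) (σ : List Bool) :
    MeasurableSet (ext x σ) := by
  rw [ext_eq]
  exact MeasurableSet.iInter fun i => MeasurableSet.iInter fun _ => measurable_cond hx _ _

theorem bitIs_AE {N : ℕ → Set (Cond μ)} {x : ℕ → Set Ω} (hx : Meas x)
    (hN : ∀ i, meets (N i) = AE μ (x i)) (i : ℕ) (v : Bool) :
    BitIs N i v = AE μ (cond v (x i) (x i)ᶜ) := by
  cases v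
  · show fnot (meets (N i)) = _
    rw [hN, fnot_AE (hx i)]
    rfl
  · exact hN i

theorem extends_AE {N : ℕ → Set (Cond μ)} {x : ℕ → Set Ω} (hx : Meas x)
    (hN : ∀ i, meets (N i) = AE μ (x i)) (σ : List Bool) :
    Extends N σ = AE μ (ext x σ) := by
  unfold Extends
  simp only [bitIs_AE hx hN, fall_AE]
  rw [ext_eq]

theorem inNull_AE {N : ℕ → Set (Cond μ)} {x : ℕ → Set Ω} (hx : Meas x)
    (hN : ∀ i, meets (N i) = AE μ (x i)) (c : ℕ → List Bool → Set (Cond μ)) :
    InNull N c = AE μ {ω | ∀ n, ∃ σ, ω ∈ rep (c n σ) ∧ ω ∈ ext x σ} := by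
  unfold InNull
  simp only [meets_rep, extends_AE hx hN, fand_AE]
  have h : ∀ n, (fex fun σ => AE μ (rep (c n σ) ∩ ext x σ)) =
      AE μ (⋃ σ, rep (c n σ) ∩ ext x σ) := fun n =>
    fex_AE fun σ => (measurable_rep _).inter (measurable_ext hx σ)
  simp only [h, fall_AE]
  congr 1
  ext ω
  simp

theorem ae_nullCode {c : ℕ → List Bool → Set (Cond μ)} {p : Cond μ} (hc : p ∈ IsNullCode c) :
    ∀ᵐ ω ∂μ, ω ∈ p.1 → ∀ n (A : Finset (List Bool)), (∀ σ ∈ A, ω ∈ rep (c n σ)) →
      ∑ σ ∈ A, (2 : ENNReal)⁻¹ ^ σ.length ≤ (2 : ENNReal)⁻¹ ^ n := by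
  have h1 : ∀ n (A : Finset (List Bool)), ∀ᵐ ω ∂μ, ω ∈ p.1 → (∀ σ ∈ A, ω ∈ rep (c n σ)) →
      ∑ σ ∈ A, (2 : ENNReal)⁻¹ ^ σ.length ≤ (2 : ENNReal)⁻¹ ^ n := by
    intro n A
    by_cases hA : ∑ σ ∈ A, (2 : ENNReal)⁻¹ ^ σ.length ≤ (2 : ENNReal)⁻¹ ^ n
    · exact ae_of_all _ fun _ _ _ => hA
    · have h2 := hc n A hA
      have e : (fall fun σ => fall fun _ : σ ∈ A => meets (c n σ)) =
          AE μ (⋂ σ, ⋂ (_ : σ ∈ A), rep (c n σ)) := by
        simp only [meets_rep, fall_AE]
      rw [e, fnot_AE (MeasurableSet.iInter fun σ => MeasurableSet.iInter fun _ =>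
        measurable_rep _), mem_AE_iff] at h2
      filter_upwards [h2] with ω h3 h4 h5
      refine absurd ?_ (h3 h4)
      simpa using h5
  filter_upwards [ae_all_iff.2 fun n => ae_all_iff.2 fun A => h1 n A] with ω h2 h3 n A h4
    using h2 n A h3 h4

theorem lintegral_code {c : ℕ → List Bool → Set (Cond μ)} {p : Cond μ} (hc : p ∈ IsNullCode c)
    (n : ℕ) : ∑' σ : List Bool, μ (p.1 ∩ rep (c n σ)) * (2 : ENNReal)⁻¹ ^ σ.length ≤
      μ p.1 * (2 : ENNReal)⁻¹ ^ n := by
  classical
  have h1 : ∀ σ : List Bool, μ (p.1 ∩ rep (c n σ)) * (2 : ENNReal)⁻¹ ^ σ.length =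
      ∫⁻ ω in p.1, (rep (c n σ)).indicator (fun _ => (2 : ENNReal)⁻¹ ^ σ.length) ω ∂μ := by
    intro σ
    rw [lintegral_indicator_const (measurable_rep _), Measure.restrict_apply (measurable_rep _),
      inter_comm, mul_comm]
  simp only [h1]
  rw [← lintegral_tsum fun σ => (measurable_const.indicator (measurable_rep _)).aemeasurable]
  have h2 : ∀ᵐ ω ∂(μ.restrict p.1), ∑' σ : List Bool,
      (rep (c n σ)).indicator (fun _ => (2 : ENNReal)⁻¹ ^ σ.length) ω ≤ (2 : ENNReal)⁻¹ ^ n := by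
    rw [ae_restrict_iff' p.2.1]
    filter_upwards [ae_nullCode hc] with ω h3 h4
    rw [ENNReal.tsum_eq_iSup_sum]
    refine iSup_le fun A => ?_
    have h5 : ∑ σ ∈ A, (rep (c n σ)).indicator (fun _ => (2 : ENNReal)⁻¹ ^ σ.length) ω =
        ∑ σ ∈ A.filter (fun σ => ω ∈ rep (c n σ)), (2 : ENNReal)⁻¹ ^ σ.length := by
      rw [Finset.sum_filter]
      rfl
    rw [h5]
    exact h3 h4 n _ fun σ hσ => (Finset.mem_filter.1 hσ).2
  calc _ ≤ ∫⁻ _ in p.1, (2 : ENNReal)⁻¹ ^ n ∂μ := lintegral_mono_ae h2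
    _ = μ p.1 * (2 : ENNReal)⁻¹ ^ n := by
      rw [lintegral_const, Measure.restrict_apply MeasurableSet.univ, univ_inter, mul_comm]

end Meas

/-! ### Random reals -/

/-- the bits of the random real with index `i` -/
def coord (i : I) (n : ℕ) : Set (I × ℕ → Bool) := {x | x (i, n) = true}

theorem meas_coord (i : I) : Meas (coord i) := fun n => (dep_coord (mem_singleton (i, n))).meas

theorem dep_ext (i : I) (σ : List Bool) : Dep {t : I × ℕ | t.1 = i} (ext (coord i) σ) := by
  rw [ext_eq]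
  refine Dep.iInter fun n => Dep.iInter fun _ => ?_
  have h : Dep {t : I × ℕ | t.1 = i} (coord i n) :=
    dep_coord (T := {t : I × ℕ | t.1 = i}) (t := (i, n)) (by simp)
  cases σ.getD n false
  · exact h.compl
  · exact h

theorem measure_ext (i : I) (σ : List Bool) :
    coinProduct I (ext (coord i) σ) = (2 : ENNReal)⁻¹ ^ σ.length := by
  classical
  let s : Finset (I × ℕ) := (Finset.range σ.length).image fun j => (i, j)
  let v : I × ℕ → Bool := fun t => σ.getD t.2 false
  have hs : ext (coord i) σ = Set.pi s fun t => {v t} := by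
    ext x
    simp only [ext, coord, mem_ofPred_eq, Set.mem_pi, s, v, Finset.coe_image, mem_image,
      Finset.coe_range, mem_Iio, mem_singleton_iff]
    constructor
    · rintro h _ ⟨j, hj, rfl⟩
      have := h j hj
      exact Bool.eq_iff_iff.2 this
    · intro h j hj
      exact Bool.eq_iff_iff.1 (h (i, j) ⟨j, hj, rfl⟩)
  have hcard : s.card = σ.length := by
    rw [Finset.card_image_of_injective, Finset.card_range]
    intro a b h
    exact congrArg Prod.snd h
  rw [hs, coinProduct, Measure.infinitePi_pi _ fun _ _ => measurableSet_singleton _]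
  simp only [coin_singleton]
  rw [Finset.prod_const, hcard]

/-- The name of the random real with index `i`. -/
def rr (i : I) (n : ℕ) : Set (Random I) := AE (coinProduct I) (coord i n)

theorem meets_rr (i : I) (n : ℕ) : meets (rr i n) = AE (coinProduct I) (coord i n) :=
  meets_AE (meas_coord i n)

/-- If the code `c` does not depend on the random real with index `i`, then this random real
does not belong to the null set with code `c`. -/
theorem notInNull {c : ℕ → List Bool → Set (Random I)} {q : Random I} (hc : q ∈ IsNullCode c)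
    {T : Set (I × ℕ)} (hq : Dep T q.1) (hT : ∀ n σ, Dep T (rep (c n σ))) (i : I)
    (hi : ∀ t ∈ T, t.1 ≠ i) : q ∈ fnot (InNull (rr i) c) := by
  rw [inNull_AE (meas_coord i) (meets_rr i)]
  intro r hr hr'
  have hdisj : Disjoint T {t : I × ℕ | t.1 = i} :=
    Set.disjoint_left.2 fun t h1 h2 => hi t h1 h2
  have h1 : ∀ n, coinProduct I r.1 ≤ (2 : ENNReal)⁻¹ ^ n := by
    intro n
    have h2 : coinProduct I r.1 ≤
        coinProduct I (⋃ σ, (q.1 ∩ rep (c n σ)) ∩ ext (coord i) σ) := by
      refine measure_mono_ae ?_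
      have h3 := mem_AE_iff.1 (le_iff_AE.1 hr)
      have h4 := mem_AE_iff.1 hr'
      filter_upwards [h3, h4] with x h5 h6 h7
      obtain ⟨σ, h8, h9⟩ := h6 h7 n
      exact mem_iUnion.2 ⟨σ, ⟨h5 h7, h8⟩, h9⟩
    refine h2.trans ((measure_iUnion_le _).trans ?_)
    have h3 : ∀ σ, coinProduct I ((q.1 ∩ rep (c n σ)) ∩ ext (coord i) σ) =
        coinProduct I (q.1 ∩ rep (c n σ)) * (2 : ENNReal)⁻¹ ^ σ.length := by
      intro σ
      rw [dep_indep hdisj (hq.inter (hT n σ)) (dep_ext i σ), measure_ext]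
    simp only [h3]
    refine (lintegral_code hc n).trans ?_
    calc coinProduct I q.1 * (2 : ENNReal)⁻¹ ^ n ≤ 1 * (2 : ENNReal)⁻¹ ^ n :=
          mul_le_mul_left prob_le_one _
      _ = _ := one_mul _
  refine r.2.2 (le_antisymm ?_ bot_le)
  have h2 := ENNReal.tendsto_pow_atTop_nhds_zero_of_lt_one
    (r := (2 : ENNReal)⁻¹) (ENNReal.inv_lt_one.2 (by norm_num))
  exact ge_of_tendsto' h2 h1

open Cardinal in
/-- Adding more than `|K|` many random reals, `K` uncountable, forces that
`non(N) ≤ |K| < cov(N)`. -/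
theorem phiHolds {K : Type} (hK : ℵ₀ < #K) (hI : #K < #I) (p : Random I) :
    p ∈ PhiHolds (Random I) K := by
  classical
  constructor
  · obtain ⟨e⟩ : Nonempty (K ↪ I) := hI.le
    refine mem_fex.2 fun q _ => ⟨q, le_rfl, fun k => rr (e k), fun c => ?_⟩
    refine mem_fimp.2 fun r _ hc => ⟨r, le_rfl, mem_fex.2 fun s hs => ?_⟩
    obtain ⟨T0, hT0, hT0'⟩ := exists_countable s.2.1
    choose T1 hT1 hT1' using fun (n : ℕ) (σ : List Bool) =>
      exists_countable (measurable_rep (c n σ))
    let T : Set (I × ℕ) := T0 ∪ ⋃ n, ⋃ σ, T1 n σ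
    have hT : T.Countable := hT0.union (countable_iUnion fun n => countable_iUnion (hT1 n))
    obtain ⟨k, hk⟩ : ∃ k, e k ∉ Prod.fst '' T := by
      by_contra hcon
      push Not at hcon
      have h1 : Countable K := by
        have h2 : (e ⁻¹' (Prod.fst '' T)).Countable :=
          (hT.image _).preimage_of_injOn e.injective.injOn
        rw [eq_univ_of_forall (s := e ⁻¹' (Prod.fst '' T)) hcon] at h2
        exact countable_univ_iff.1 h2
      exact absurd (Cardinal.mk_le_aleph0_iff.2 h1) (not_le.2 hK)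
    refine ⟨s, le_rfl, k, notInNull ((reg_isNullCode c).1 _ hc _ hs)
      (hT0'.mono subset_union_left) (T := T) (fun n σ => ?_) (e k) fun t ht h => hk ⟨t, ht, h⟩⟩
    exact (hT1' n σ).mono (subset_union_of_subset_right
      (subset_iUnion_of_subset n (subset_iUnion_of_subset σ le_rfl)) T0)
  · intro C
    refine mem_fimp.2 fun q _ hC => ⟨q, le_rfl, ?_⟩
    refine mem_fex.2 fun s hs => ?_
    obtain ⟨T0, hT0, hT0'⟩ := exists_countable s.2.1
    choose T1 hT1 hT1' using fun (k : K) (n : ℕ) (σ : List Bool) =>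
      exists_countable (measurable_rep (C k n σ))
    let T : K → Set (I × ℕ) := fun k => T0 ∪ ⋃ n, ⋃ σ, T1 k n σ
    have hT : ∀ k, (T k).Countable := fun k =>
      hT0.union (countable_iUnion fun n => countable_iUnion (hT1 k n))
    obtain ⟨i, hi⟩ : ∃ i, i ∉ ⋃ k, Prod.fst '' (T k) := by
      by_contra hcon
      push Not at hcon
      have h1 : #I ≤ #K * ℵ₀ := by
        rw [← mk_univ, ← eq_univ_of_forall hcon]
        refine (mk_iUnion_le_sum_mk).trans ((sum_le_sum _ (fun _ => ℵ₀) fun k => ?_).trans ?_)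
        · exact ((hT k).image _).le_aleph0
        · rw [sum_const']
      rw [mul_aleph0_eq hK.le] at h1
      exact absurd h1 (not_le.2 hI)
    refine ⟨s, le_rfl, rr i, fun k => ?_⟩
    refine notInNull ((reg_isNullCode _).1 _ (hC k) _ hs)
      (hT0'.mono subset_union_left) (T := T k) (fun n σ => ?_) i
      fun t ht h => hi (mem_iUnion.2 ⟨k, t, ht, h⟩)
    exact (hT1' k n σ).mono (subset_union_of_subset_right
      (subset_iUnion_of_subset n (subset_iUnion_of_subset σ le_rfl)) T0)

end Pool.Agent.V11242.RN
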