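import Mathlib
import Pool.Agent.TH773.PSet.Defs

/-!
# The σ-ideal generated by the closed null sets, and the invariants `b_b^eq` and `d_b^eq`
-/

set_option autoImplicit false

namespace Pool.Agent.V11242.RN

open Cardinal MeasureTheory

/-- The product measure on `2^ω`. -/
noncomputable def lam : Measure (ℕ → Bool) := Measure.infinitePi fun _ => TH773.PSet.coin

/-- `X` belongs to the σ-ideal generated by the closed null subsets of `2^ω`. -/
def InE (X : Set (ℕ → Bool)) : Prop :=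
  ∃ C : ℕ → Set (ℕ → Bool), (∀ n, IsClosed (C n) ∧ lam (C n) = 0) ∧ X ⊆ ⋃ n, C n

/-- The uniformity of the ideal `E`. -/
noncomputable def nonE : Cardinal.{0} := sInf {c | ∃ X : Set (ℕ → Bool), ¬ InE X ∧ #X = c}

/-- The covering number of the ideal `E`. -/
noncomputable def covE : Cardinal.{0} :=
  sInf {c | ∃ F : Set (Set (ℕ → Bool)), (∀ X ∈ F, InE X) ∧ ⋃₀ F = Set.univ ∧ #F = c}

/-- The partition of `ω` into the intervals `[a n, a (n + 1))`. -/
def IsPart (a : ℕ → ℕ) : Prop := a 0 = 0 ∧ StrictMono a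

/-- The set of all functions below `b`. -/
def Below (b : ℕ → ℕ) : Set (ℕ → ℕ) := {f | ∀ k, f k < b k}

/-- For almost all `n`, the functions `f` and `h` agree at some point of the `n`-th interval. -/
def Caught (a h f : ℕ → ℕ) : Prop :=
  ∃ N, ∀ n, N ≤ n → ∃ k, a n ≤ k ∧ k < a (n + 1) ∧ f k = h k

/-- The invariant `b_b^eq`. (The minimum of the empty set is `∞`.) -/
noncomputable def bEq (b : ℕ → ℕ) : WithTop Cardinal.{0} :=
  ⨅ F ∈ {F : Set (ℕ → ℕ) | F ⊆ Below b ∧
    ¬ ∃ a h, IsPart a ∧ h ∈ Below b ∧ ∀ f ∈ F, Caught a h f}, ((#F : Cardinal.{0}) : WithTop _)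

/-- The invariant `d_b^eq`. -/
noncomputable def dEq (b : ℕ → ℕ) : Cardinal.{0} :=
  sInf {c | ∃ D : Set ((ℕ → ℕ) × (ℕ → ℕ)), (∀ d ∈ D, IsPart d.1 ∧ d.2 ∈ Below b) ∧
    (∀ f ∈ Below b, ∃ d ∈ D, Caught d.1 d.2 f) ∧ #D = c}

/-- All values of `b` are positive, and the sum of their reciprocals diverges. -/
def Divergent (b : ℕ → ℕ) : Prop := (∀ k, 0 < b k) ∧ ¬ Summable fun k => (1 : ℝ) / b k

end Pool.Agent.V11242.RN
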