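import Mathlib
import Pool.Agent.V11242.RF.Pol
import Pool.Agent.V11242.RN.Defs
import Pool.Agent.V11242.RN.EqDefs

/-!
# Null sets, codes, and the inequalities `cov(N) ≤ b_b^eq` and `d_b^eq ≤ non(N)`
-/

set_option autoImplicit false
set_option linter.unusedSectionVars false

namespace Pool.Agent.V11242.RN

open Cardinal MeasureTheory Set Filter Topology ProbabilityTheory

open Pool.Agent.TH773.PSet (coin)

instance : IsProbabilityMeasure lam := by
  unfold lam
  infer_instance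

/-- the basic clopen set of the extensions of `σ` -/
def cyl (σ : List Bool) : Set (ℕ → Bool) := {x | ∀ i, i < σ.length → x i = σ.getD i false}

theorem lam_pi (s : Finset ℕ) (v : ℕ → Bool) :
    lam (Set.pi s fun i => {v i}) = (2 : ENNReal)⁻¹ ^ s.card := by
  unfold lam
  rw [Measure.infinitePi_pi _ fun _ _ => measurableSet_singleton _]
  simp only [RF.coin_singleton]
  rw [Finset.prod_const]

theorem cyl_eq (σ : List Bool) :
    cyl σ = Set.pi (Finset.range σ.length) fun i => {σ.getD i false} := by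
  ext x
  simp [cyl, Set.mem_pi]

theorem lam_cyl (σ : List Bool) : lam (cyl σ) = (2 : ENNReal)⁻¹ ^ σ.length := by
  rw [cyl_eq, lam_pi, Finset.card_range]

theorem isOpen_cyl (σ : List Bool) : IsOpen (cyl σ) := by
  rw [cyl_eq]
  exact isOpen_set_pi (Finset.finite_toSet _) fun _ _ => isOpen_discrete _

/-- the initial segment of length `n` -/
def seg (x : ℕ → Bool) (n : ℕ) : List Bool := (List.range n).map x

theorem length_seg (x : ℕ → Bool) (n : ℕ) : (seg x n).length = n := by simp [seg]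

theorem getD_seg (x : ℕ → Bool) {n i : ℕ} (h : i < n) : (seg x n).getD i false = x i := by
  simp [seg, h]

theorem mem_cyl_seg {x y : ℕ → Bool} {n : ℕ} : y ∈ cyl (seg x n) ↔ ∀ i < n, y i = x i := by
  simp only [cyl, mem_ofPred_eq, length_seg]
  exact forall_congr' fun i => forall_congr' fun hi => by rw [getD_seg x hi]

theorem exists_seg_subset {U : Set (ℕ → Bool)} (hU : IsOpen U) {x : ℕ → Bool} (hx : x ∈ U) :
    ∃ n, cyl (seg x n) ⊆ U := by
  obtain ⟨I, u, hu, hsub⟩ := isOpen_pi_iff.1 hU x hx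
  obtain ⟨n, hn⟩ := I.finite_toSet.bddAbove
  refine ⟨n + 1, fun y hy => hsub fun i hi => ?_⟩
  have h1 : i < n + 1 := Nat.lt_succ_of_le (hn hi)
  rw [mem_cyl_seg.1 hy i h1]
  exact (hu i hi).2

/-- the minimal cylinders included in `U` -/
def minc (U : Set (ℕ → Bool)) : Set (List Bool) :=
  {σ | cyl σ ⊆ U ∧ ∀ τ : List Bool, τ.length < σ.length → τ <+: σ → ¬ cyl τ ⊆ U}

theorem exists_minc {U : Set (ℕ → Bool)} (hU : IsOpen U) {x : ℕ → Bool} (hx : x ∈ U) :
    ∃ σ ∈ minc U, x ∈ cyl σ := by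
  classical
  have hex := exists_seg_subset hU hx
  let n := Nat.find hex
  refine ⟨seg x n, ⟨Nat.find_spec hex, fun τ hτ hpre hsub => ?_⟩,
    mem_cyl_seg.2 fun _ _ => rfl⟩
  rw [length_seg] at hτ
  have h1 : τ = seg x τ.length := by
    obtain ⟨u, hu⟩ := hpre
    refine List.ext_getElem (by rw [length_seg]) fun i h2 h3 => ?_
    have h4 : (seg x n)[i]? = τ[i]? := by
      rw [← hu, List.getElem?_append_left h2]
    have h5 : i < n := h2.trans hτ
    rw [List.getElem?_eq_getElem h2, List.getElem?_eq_getElem (by rw [length_seg]; exact h5)] at h4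
    have h6 := (Option.some.inj h4).symm
    rw [h6]
    simp [seg]
  exact Nat.find_min hex hτ (h1 ▸ hsub)

theorem disjoint_minc {U : Set (ℕ → Bool)} {σ τ : List Bool} (hσ : σ ∈ minc U) (hτ : τ ∈ minc U)
    (hne : σ ≠ τ) : Disjoint (cyl σ) (cyl τ) := by
  rw [Set.disjoint_left]
  intro x hx hx'
  have key : ∀ σ τ : List Bool, σ ∈ minc U → τ ∈ minc U → x ∈ cyl σ → x ∈ cyl τ →
      σ.length ≤ τ.length → σ = τ := by
    intro σ τ hσ hτ hx hx' hle
    have hpre : σ <+: τ := by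
      rw [List.prefix_iff_eq_take]
      refine List.ext_getElem (by simp [hle]) fun i h1 h2 => ?_
      rw [List.getElem_take]
      have h3 := hx i h1
      have h4 := hx' i (h1.trans_le hle)
      rw [List.getD_eq_getElem _ _ h1] at h3
      rw [List.getD_eq_getElem _ _ (h1.trans_le hle)] at h4
      rw [← h3, ← h4]
    rcases hle.lt_or_eq with hlt | heq
    · exact absurd hσ.1 (hτ.2 σ hlt hpre)
    · exact hpre.eq_of_length heq
  rcases le_total σ.length τ.length with h | h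
  · exact hne (key σ τ hσ hτ hx hx' h)
  · exact hne (key τ σ hτ hσ hx' hx h).symm

theorem sum_minc {U : Set (ℕ → Bool)} (A : Finset (List Bool)) (hA : ∀ σ, σ ∈ A → σ ∈ minc U) :
    ∑ σ ∈ A, (2 : ENNReal)⁻¹ ^ σ.length ≤ lam U := by
  simp only [← lam_cyl]
  rw [← measure_biUnion_finset]
  · exact measure_mono (iUnion₂_subset fun σ hσ => (hA σ hσ).1)
  · intro σ hσ τ hτ hne
    exact disjoint_minc (hA σ hσ) (hA τ hτ) hne
  · exact fun σ _ => (isOpen_cyl σ).measurableSet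

/-- Every null set is included in a coded null set. -/
theorem exists_code {X : Set (ℕ → Bool)} (hX : lam X = 0) :
    ∃ c, NullCode c ∧ ∀ x ∈ X, InCoded x c := by
  have h1 : ∀ n : ℕ, ∃ U, X ⊆ U ∧ IsOpen U ∧ lam U < (2 : ENNReal)⁻¹ ^ n := fun n =>
    X.exists_isOpen_lt_of_lt _ (by
      rw [hX]
      exact Pool.Agent.TH773.PSet.two_pos n)
  choose U h2 h3 h4 using h1
  refine ⟨fun n => minc (U n), fun n A hA hA' => hA ((sum_minc A hA').trans (h4 n).le),
    fun x hx n => ?_⟩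
  obtain ⟨σ, hσ, hxσ⟩ := exists_minc (h3 n) (h2 n hx)
  exact ⟨σ, hσ, hxσ⟩

/-! ### Independence -/

/-- the σ-algebra generated by the coordinates in `T` -/
@[reducible] def sg (T : Set ℕ) : MeasurableSpace (ℕ → Bool) :=
  ⨆ t ∈ T, MeasurableSpace.comap (fun x : ℕ → Bool => x t) inferInstance

theorem comap_le (t : ℕ) :
    MeasurableSpace.comap (fun x : ℕ → Bool => x t) inferInstance ≤ MeasurableSpace.pi :=
  (measurable_pi_apply t).comap_le

theorem indep {S T : Set ℕ} (h : Disjoint S T) {A B : Set (ℕ → Bool)}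
    (hA : MeasurableSet[sg S] A) (hB : MeasurableSet[sg T] B) :
    lam (A ∩ B) = lam A * lam B := by
  have h1 : iIndepFun (fun (t : ℕ) (x : ℕ → Bool) => x t) lam :=
    iIndepFun_infinitePi (P := fun _ : ℕ => coin) (X := fun _ b => b)
      fun _ => measurable_id
  have h2 := indep_iSup_of_disjoint (fun t => comap_le t) h1.iIndep h
  exact (Indep_iff _ _ _).1 h2 A B hA hB

theorem meas_bit {T : Set ℕ} {t : ℕ} (ht : t ∈ T) (v : Bool) :
    MeasurableSet[sg T] {x : ℕ → Bool | x t = v} := by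
  have h1 : MeasurableSpace.comap (fun x : ℕ → Bool => x t) inferInstance ≤ sg T :=
    le_iSup₂_of_le t ht le_rfl
  exact h1 _ ⟨{v}, measurableSet_singleton v, rfl⟩

/-- The number `v` is written in the first `l` bits of the block with index `k`. -/
def wr (l k v : ℕ) : Set (ℕ → Bool) := {x | ∀ j < l, x (Nat.pair k j) = v.testBit j}

theorem meas_wr (l k v : ℕ) : MeasurableSet[sg {t | t.unpair.1 = k}] (wr l k v) := by
  have : wr l k v = ⋂ j : ℕ, ⋂ (_ : j < l), {x : ℕ → Bool | x (Nat.pair k j) = v.testBit j} := by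
    ext x
    simp [wr]
  rw [this]
  refine @MeasurableSet.iInter _ _ (sg {t | t.unpair.1 = k}) _ _ fun j =>
    @MeasurableSet.iInter _ _ (sg {t | t.unpair.1 = k}) _ _ fun _ => ?_
  exact meas_bit (T := {t | t.unpair.1 = k}) (t := Nat.pair k j) (by simp) _

theorem lam_wr (l k v : ℕ) : lam (wr l k v) = (2 : ENNReal)⁻¹ ^ l := by
  classical
  let s : Finset ℕ := (Finset.range l).image fun j => Nat.pair k j
  let u : ℕ → Bool := fun t => v.testBit t.unpair.2
  have hs : wr l k v = Set.pi s fun i => {u i} := by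
    ext x
    simp [wr, s, u, Set.mem_pi]
  have hcard : s.card = l := by
    rw [Finset.card_image_of_injective, Finset.card_range]
    intro a b h
    exact (Nat.pair_eq_pair.1 h).2
  rw [hs, lam_pi, hcard]

theorem lam_forall (l v : ℕ → ℕ) (S : Finset ℕ) :
    lam {x | ∀ k ∈ S, x ∉ wr (l k) k (v k)} = ∏ k ∈ S, (1 - (2 : ENNReal)⁻¹ ^ l k) := by
  classical
  have hdep : ∀ S : Finset ℕ, MeasurableSet[sg {t | t.unpair.1 ∈ S}]
      {x | ∀ k ∈ S, x ∉ wr (l k) k (v k)} := by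
    intro S
    have : {x | ∀ k ∈ S, x ∉ wr (l k) k (v k)} = ⋂ k : ℕ, ⋂ (_ : k ∈ S), (wr (l k) k (v k))ᶜ := by
      ext x
      simp
    rw [this]
    refine @MeasurableSet.iInter _ _ (sg {t | t.unpair.1 ∈ S}) _ _ fun k =>
      @MeasurableSet.iInter _ _ (sg {t | t.unpair.1 ∈ S}) _ _ fun hk => ?_
    refine @MeasurableSet.compl _ _ (sg {t | t.unpair.1 ∈ S}) ?_
    have h1 : sg {t : ℕ | t.unpair.1 = k} ≤ sg {t : ℕ | t.unpair.1 ∈ S} := by
      refine biSup_mono fun t ht => ?_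
      have ht' : t.unpair.1 = k := ht
      show t.unpair.1 ∈ S
      rw [ht']
      exact hk
    exact h1 _ (meas_wr _ _ _)
  induction S using Finset.induction_on with
  | empty => simp
  | insert k S hk ih =>
    have e : {x | ∀ j ∈ insert k S, x ∉ wr (l j) j (v j)} =
        (wr (l k) k (v k))ᶜ ∩ {x | ∀ j ∈ S, x ∉ wr (l j) j (v j)} := by
      ext x
      simp
    have hm : MeasurableSet (wr (l k) k (v k)) :=
      (iSup₂_le fun t _ => comap_le t : sg {t | t.unpair.1 = k} ≤ MeasurableSpace.pi) _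
        (meas_wr _ _ _)
    rw [e, indep ?_ (@MeasurableSet.compl _ _ (sg {t | t.unpair.1 = k}) (meas_wr _ _ _)) (hdep S),
      ih, Finset.prod_insert hk, prob_compl_eq_one_sub hm, lam_wr]
    rw [Set.disjoint_left]
    intro t h1 h2
    have h3 : t.unpair.1 = k := h1
    have h4 : t.unpair.1 ∈ S := h2
    rw [h3] at h4
    exact hk h4

theorem prod_le_exp (l : ℕ → ℕ) (S : Finset ℕ) :
    ∏ k ∈ S, (1 - (2 : ENNReal)⁻¹ ^ l k) ≤
      ENNReal.ofReal (Real.exp (-∑ k ∈ S, (2 : ℝ)⁻¹ ^ l k)) := by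
  classical
  have h1 : ∀ k, (1 - (2 : ENNReal)⁻¹ ^ l k) ≤ ENNReal.ofReal (Real.exp (-(2 : ℝ)⁻¹ ^ l k)) := by
    intro k
    have e : (1 - (2 : ENNReal)⁻¹ ^ l k) = ENNReal.ofReal (1 - (2 : ℝ)⁻¹ ^ l k) := by
      rw [ENNReal.ofReal_sub _ (by positivity), ENNReal.ofReal_one,
        ENNReal.ofReal_pow (by norm_num), ENNReal.ofReal_inv_of_pos (by norm_num)]
      norm_num
    rw [e]
    refine ENNReal.ofReal_le_ofReal ?_
    have := Real.add_one_le_exp (-(2 : ℝ)⁻¹ ^ l k)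
    linarith
  refine (Finset.prod_le_prod' fun k _ => h1 k).trans ?_
  rw [← ENNReal.ofReal_prod_of_nonneg fun k _ => (Real.exp_pos _).le, ← Real.exp_sum,
    Finset.sum_neg_distrib]

/-! ### The partition -/

/-- the number of bits used for the value at `k` -/
def len (b : ℕ → ℕ) (k : ℕ) : ℕ := Nat.clog 2 (b k)

theorem le_two_pow (b : ℕ → ℕ) (k : ℕ) : b k ≤ 2 ^ len b k := Nat.le_pow_clog (by norm_num) _

theorem two_pow_le {b : ℕ → ℕ} (hb : ∀ k, 0 < b k) (k : ℕ) : 2 ^ len b k ≤ 2 * b k := by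
  unfold len
  rcases (Nat.succ_le_of_lt (hb k)).eq_or_lt with h | h
  · rw [← h]
    simp
  · have h1 := Nat.pow_pred_clog_lt_self (b := 2) (by norm_num) h
    have h2 : 0 < Nat.clog 2 (b k) := Nat.clog_pos (by norm_num) h
    obtain ⟨m, hm⟩ := Nat.exists_eq_succ_of_ne_zero h2.ne'
    rw [hm] at h1 ⊢
    simp only [Nat.pred_succ] at h1
    rw [pow_succ]
    omega

theorem not_summable_len {b : ℕ → ℕ} (hb : Divergent b) :
    ¬ Summable fun k => (2 : ℝ)⁻¹ ^ len b k := by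
  intro h
  refine hb.2 ?_
  refine Summable.of_nonneg_of_le (fun k => by positivity) (fun k => ?_) (h.mul_left 2)
  have h1 : (2 : ℝ) ^ len b k ≤ 2 * b k := by exact_mod_cast two_pow_le hb.1 k
  have h2 : (0 : ℝ) < b k := by exact_mod_cast hb.1 k
  rw [inv_pow, ← div_eq_mul_inv, div_le_div_iff₀ h2 (by positivity)]
  linarith

theorem exists_part {b : ℕ → ℕ} (hb : Divergent b) :
    ∃ a, IsPart a ∧ ∀ n : ℕ, (n : ℝ) ≤ ∑ k ∈ Finset.Ico (a n) (a (n + 1)), (2 : ℝ)⁻¹ ^ len b k := by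
  have h1 : ∀ c n : ℕ, ∃ M, c < M ∧ (n : ℝ) ≤ ∑ k ∈ Finset.Ico c M, (2 : ℝ)⁻¹ ^ len b k := by
    intro c n
    have h2 := (not_summable_iff_tendsto_nat_atTop_of_nonneg
      (fun k => by positivity : ∀ k, (0 : ℝ) ≤ (2 : ℝ)⁻¹ ^ len b k)).1 (not_summable_len hb)
    obtain ⟨M, hM⟩ := eventually_atTop.1 ((tendsto_atTop.1 h2)
      ((n : ℝ) + ∑ k ∈ Finset.range c, (2 : ℝ)⁻¹ ^ len b k))
    refine ⟨max M (c + 1), (Nat.lt_succ_self c).trans_le (le_max_right _ _), ?_⟩
    have h3 := hM (max M (c + 1)) (le_max_left _ _)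
    have h4 := Finset.sum_range_add_sum_Ico (fun k => (2 : ℝ)⁻¹ ^ len b k)
      ((Nat.le_succ c).trans (le_max_right M (c + 1)))
    linarith
  choose M hM hM' using h1
  refine ⟨fun n => Nat.rec 0 (fun n c => M c n) n, ⟨rfl, strictMono_nat_of_lt_succ fun n => hM _ _⟩,
    fun n => hM' _ _⟩

open Classical in
/-- the function coded by `x` -/
noncomputable def dec (b : ℕ → ℕ) (x : ℕ → Bool) (k : ℕ) : ℕ :=
  if h : ∃ v < b k, x ∈ wr (len b k) k v then h.choose else 0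

theorem dec_below {b : ℕ → ℕ} (hb : ∀ k, 0 < b k) (x : ℕ → Bool) : dec b x ∈ Below b := by
  intro k
  unfold dec
  split_ifs with h
  · exact h.choose_spec.1
  · exact hb k

theorem dec_eq {b : ℕ → ℕ} {x : ℕ → Bool} {k v : ℕ} (hv : v < b k) (hx : x ∈ wr (len b k) k v) :
    dec b x k = v := by
  have h : ∃ v < b k, x ∈ wr (len b k) k v := ⟨v, hv, hx⟩
  have e : dec b x k = h.choose := by
    unfold dec
    rw [dif_pos h]
  rw [e]
  have h1 := h.choose_spec
  refine Nat.eq_of_testBit_eq fun j => ?_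
  by_cases hj : j < len b k
  · rw [← h1.2 j hj, hx j hj]
  · have h2 : ∀ w < b k, w.testBit j = false := fun w hw =>
      Nat.testBit_eq_false_of_lt ((hw.trans_le (le_two_pow b k)).trans_le
        (Nat.pow_le_pow_right (by norm_num) (not_lt.1 hj)))
    rw [h2 _ h1.1, h2 _ hv]

theorem ae_caught {b : ℕ → ℕ} {a : ℕ → ℕ}
    (ha : ∀ n : ℕ, (n : ℝ) ≤ ∑ k ∈ Finset.Ico (a n) (a (n + 1)), (2 : ℝ)⁻¹ ^ len b k)
    {f : ℕ → ℕ} (hf : f ∈ Below b) : lam {x | ¬ Caught a (dec b x) f} = 0 := by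
  let A : ℕ → Set (ℕ → Bool) := fun n =>
    {x | ∀ k ∈ Finset.Ico (a n) (a (n + 1)), x ∉ wr (len b k) k (f k)}
  have h1 : ∀ n, lam (A n) ≤ ENNReal.ofReal (Real.exp (-(n : ℝ))) := by
    intro n
    show lam {x | ∀ k ∈ Finset.Ico (a n) (a (n + 1)), x ∉ wr (len b k) k (f k)} ≤ _
    rw [lam_forall (len b) f]
    refine (prod_le_exp _ _).trans (ENNReal.ofReal_le_ofReal (Real.exp_le_exp.2 ?_))
    exact neg_le_neg (ha n)
  have h2 : ∑' n, lam (A n) ≠ ⊤ := by
    refine ne_top_of_le_ne_top ?_ (ENNReal.tsum_le_tsum h1)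
    rw [← ENNReal.ofReal_tsum_of_nonneg (fun n => (Real.exp_pos _).le)
      Real.summable_exp_neg_nat]
    exact ENNReal.ofReal_ne_top
  have h3 := ae_eventually_notMem h2
  rw [← ae_iff]
  filter_upwards [h3] with x hx
  obtain ⟨N, hN⟩ := eventually_atTop.1 hx
  refine ⟨N, fun n hn => ?_⟩
  have h4 := hN n hn
  simp only [A, mem_ofPred_eq, not_forall, not_not] at h4
  obtain ⟨k, hk, hk'⟩ := h4
  rw [Finset.mem_Ico] at hk
  exact ⟨k, hk.1, hk.2, (dec_eq (hf k) hk').symm⟩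

/-! ### The inequalities -/

theorem lam_of_inE {X : Set (ℕ → Bool)} (h : InE X) : lam X = 0 := by
  obtain ⟨C, hC, hX⟩ := h
  exact measure_mono_null hX (measure_iUnion_null fun n => (hC n).2)

theorem exists_notMem {K : Type} (h : PhiFor K) (X : K → Set (ℕ → Bool))
    (hX : ∀ k, lam (X k) = 0) : ∃ x, ∀ k, x ∉ X k := by
  choose c hc hc' using fun k => exists_code (hX k)
  obtain ⟨x, hx⟩ := h.2 c hc
  exact ⟨x, fun k hk => hx k (hc' k x hk)⟩

theorem exists_nonnull {K : Type} (h : PhiFor K) :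
    ∃ r : K → ℕ → Bool, ∀ X : Set (ℕ → Bool), lam X = 0 → ∃ k, r k ∉ X := by
  obtain ⟨r, hr⟩ := h.1
  refine ⟨r, fun X hX => ?_⟩
  obtain ⟨c, hc, hc'⟩ := exists_code hX
  obtain ⟨k, hk⟩ := hr c hc
  exact ⟨k, fun h' => hk (hc' _ h')⟩

theorem exists_notMem_of_le {K : Type} (h : PhiFor K) {F : Set (Set (ℕ → Bool))}
    (hF : ∀ X ∈ F, lam X = 0) (hle : #F ≤ #K) : ∃ x, ∀ X ∈ F, x ∉ X := by
  rcases F.eq_empty_or_nonempty with rfl | ⟨X0, hX0⟩
  · exact ⟨fun _ => false, fun X hX => absurd hX (notMem_empty X)⟩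
  · obtain ⟨e⟩ : Nonempty (F ↪ K) := hle
    have hne : Nonempty F := ⟨⟨X0, hX0⟩⟩
    obtain ⟨x, hx⟩ := exists_notMem h (fun k => (Function.invFun e k).1)
      fun k => hF _ (Function.invFun e k).2
    refine ⟨x, fun X hX => ?_⟩
    have h1 := hx (e ⟨X, hX⟩)
    rwa [Function.leftInverse_invFun e.injective] at h1

theorem nonE_le {K : Type} (h : PhiFor K) : nonE ≤ #K := by
  obtain ⟨r, hr⟩ := exists_nonnull h
  have h1 : nonE ≤ #(range r) := by
    refine csInf_le' ⟨range r, fun hE => ?_, rfl⟩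
    obtain ⟨k, hk⟩ := hr _ (lam_of_inE hE)
    exact hk ⟨k, rfl⟩
  exact h1.trans mk_range_le

theorem inE_singleton (x : ℕ → Bool) : InE {x} := by
  refine ⟨fun _ => {x}, fun _ => ⟨isClosed_singleton, ?_⟩, fun y hy => mem_iUnion.2 ⟨0, hy⟩⟩
  have h1 : ∀ n : ℕ, lam {x} ≤ (2 : ENNReal)⁻¹ ^ n := by
    intro n
    have h2 : ({x} : Set (ℕ → Bool)) ⊆ cyl (seg x n) := by
      rintro _ rfl
      exact mem_cyl_seg.2 fun _ _ => rfl
    refine (measure_mono h2).trans ?_
    rw [lam_cyl, length_seg]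
  refine le_antisymm ?_ bot_le
  have h2 := ENNReal.tendsto_pow_atTop_nhds_zero_of_lt_one
    (r := (2 : ENNReal)⁻¹) (ENNReal.inv_lt_one.2 (by norm_num))
  exact ge_of_tendsto' h2 h1

theorem lt_covE {K : Type} (h : PhiFor K) : #K < covE := by
  have hne : {c : Cardinal.{0} | ∃ F : Set (Set (ℕ → Bool)), (∀ X ∈ F, InE X) ∧
      ⋃₀ F = Set.univ ∧ #F = c}.Nonempty := by
    refine ⟨_, range fun x : ℕ → Bool => {x}, ?_, ?_, rfl⟩
    · rintro _ ⟨x, rfl⟩
      exact inE_singleton x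
    · exact eq_univ_of_forall fun x => mem_sUnion.2 ⟨{x}, ⟨x, rfl⟩, rfl⟩
  obtain ⟨F, hF, hF', hc⟩ := csInf_mem hne
  have hc' : #F = covE := hc
  rw [← hc', ← not_le]
  intro hle
  obtain ⟨x, hx⟩ := exists_notMem_of_le h (fun X hX => lam_of_inE (hF X hX)) hle
  have h1 : x ∈ ⋃₀ F := hF' ▸ mem_univ x
  obtain ⟨X, hX, hxX⟩ := mem_sUnion.1 h1
  exact hx X hX hxX

theorem lt_bEq {K : Type} (h : PhiFor K) {b : ℕ → ℕ} (hb : Divergent b) :
    ((#K : Cardinal.{0}) : WithTop Cardinal.{0}) < bEq b := by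
  obtain ⟨a, ha, ha'⟩ := exists_part hb
  have h1 : ((Order.succ #K : Cardinal.{0}) : WithTop Cardinal.{0}) ≤ bEq b := by
    refine le_iInf₂ fun F hF => WithTop.coe_le_coe.2 (Order.succ_le_of_lt ?_)
    rw [← not_le]
    intro hle
    have h2 : #(range fun f : F => {x | ¬ Caught a (dec b x) f.1}) ≤ #K := mk_range_le.trans hle
    obtain ⟨x, hx⟩ := exists_notMem_of_le h (F := range fun f : F =>
      {x | ¬ Caught a (dec b x) f.1}) (by
        rintro _ ⟨f, rfl⟩
        exact ae_caught ha' (hF.1 f.2)) h2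
    refine hF.2 ⟨a, dec b x, ha, dec_below hb.1 x, fun f hf => ?_⟩
    have h3 := hx _ ⟨⟨f, hf⟩, rfl⟩
    simpa using h3
  exact (WithTop.coe_lt_coe.2 (Order.lt_succ _)).trans_le h1

theorem dEq_le {K : Type} (h : PhiFor K) {b : ℕ → ℕ} (hb : Divergent b) : dEq b ≤ #K := by
  obtain ⟨a, ha, ha'⟩ := exists_part hb
  obtain ⟨r, hr⟩ := exists_nonnull h
  have h1 : dEq b ≤ #(range fun k => (a, dec b (r k))) := by
    refine csInf_le' ⟨range fun k => (a, dec b (r k)), ?_, ?_, rfl⟩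
    · rintro _ ⟨k, rfl⟩
      exact ⟨ha, dec_below hb.1 _⟩
    · intro f hf
      obtain ⟨k, hk⟩ := hr _ (ae_caught ha' hf)
      exact ⟨_, ⟨k, rfl⟩, by simpa using hk⟩
  exact h1.trans mk_range_le

end Pool.Agent.V11242.RN
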