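import Mathlib
import Pool.Agent.V11242.RN.Forced
import Pool.Agent.V11242.RN.Ground

/-!
# The random model
-/

set_option autoImplicit false

namespace Pool.Agent.V11242.RN

open Cardinal Pool.Agent.TH773.PSet

theorem exists_forcing : ∃ (K P : Type) (_ : Preorder P), Nonempty P ∧
    (∀ A : Set P, (∀ p ∈ A, ∀ q ∈ A, p ≠ q → ¬ ∃ r, r ≤ p ∧ r ≤ q) → A.Countable) ∧
    ∀ p : P, p ∈ PhiHolds P K := by
  let K : Type := (ℵ₁ : Cardinal.{0}).out
  let I : Type := (ℵ_ 2 : Cardinal.{0}).out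
  have hK : ℵ₀ < #K := by
    rw [mk_out]
    exact aleph0_lt_aleph_one
  have hI : #K < #I := by
    rw [mk_out, mk_out]
    exact aleph_lt_aleph.2 (_root_.one_lt_two)
  refine ⟨K, Random I, inferInstance, ⟨RF.mk Set.univ MeasurableSet.univ (by simp)⟩, ?_,
    phiHolds hK hI⟩
  intro A hA
  refine RF.countable_of_incomp (μ := coinProduct I) (fun p : A => p.1) fun p q hpq => ?_
  exact hA p.1 p.2 q.1 q.2 fun h => hpq (Subtype.ext h)

end Pool.Agent.V11242.RN
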